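import Pool.Agent.N889.AO.Stm

/-!
# Points of finitely generated rings over prime fields
-/

set_option autoImplicit false

namespace Pool.Agent.N55.AO

open Polynomial Pool.Agent.N889.AO

theorem map_mem {K : Type} [Field K] (S : Finset ℂ) (ψ : Algebra.adjoin ℤ (S : Set ℂ) →+* K)
    (T : Finset K)
    (hT : ∀ s (hs : s ∈ S), ψ ⟨s, Algebra.subset_adjoin (by exact_mod_cast hs)⟩ ∈ T)
    (x : ℂ) (hx : x ∈ Algebra.adjoin ℤ (S : Set ℂ)) :
    ψ ⟨x, hx⟩ ∈ Algebra.adjoin ℤ (T : Set K) := by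
  induction hx using Algebra.adjoin_induction with
  | mem s hs => exact Algebra.subset_adjoin (hT s (by exact_mod_cast hs))
  | algebraMap r =>
    have h1 : (⟨algebraMap ℤ ℂ r, Subalgebra.algebraMap_mem _ r⟩ : Algebra.adjoin ℤ (S : Set ℂ)) =
        ((r : ℤ) : Algebra.adjoin ℤ (S : Set ℂ)) := by
      apply Subtype.ext
      simp
    rw [h1, map_intCast]
    exact intCast_mem _ r
  | add x y hx hy h1 h2 =>
    have h3 : (⟨x + y, add_mem hx hy⟩ : Algebra.adjoin ℤ (S : Set ℂ)) = ⟨x, hx⟩ + ⟨y, hy⟩ := rfl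
    rw [h3, map_add]
    exact add_mem h1 h2
  | mul x y hx hy h1 h2 =>
    have h3 : (⟨x * y, mul_mem hx hy⟩ : Algebra.adjoin ℤ (S : Set ℂ)) = ⟨x, hx⟩ * ⟨y, hy⟩ := rfl
    rw [h3, map_mul]
    exact mul_mem h1 h2

/-- the order of the image of a root of unity -/
theorem dvd_of_root {p : ℕ} [Fact p.Prime] {L : ℕ} (hL : 0 < L) (hp : L < p) (ζ : ℂ)
    (hζ : IsPrimitiveRoot ζ L) (A : Subalgebra ℤ ℂ) (hA : ζ ∈ A) (φ : A →+* ZMod p) :
    L ∣ p - 1 := by
  set z : ZMod p := φ ⟨ζ, hA⟩ with hz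
  have h1 : z ^ L = 1 := by
    rw [hz, ← map_pow]
    have : (⟨ζ, hA⟩ : A) ^ L = 1 := by
      apply Subtype.ext
      change ζ ^ L = 1
      exact hζ.pow_eq_one
    rw [this, map_one]
  have h2 : ∀ m < L, 0 < m → z ^ m ≠ 1 := by
    intro m hm hm0 hcon
    have h3 : ζ ^ m ≠ 1 := hζ.pow_ne_one_of_pos_of_lt hm0.ne' hm
    have h4 : ∑ i ∈ Finset.range L, (ζ ^ m) ^ i = 0 := by
      have h5 := mul_geom_sum (ζ ^ m) L
      have h6 : (ζ ^ m) ^ L - 1 = 0 := by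
        rw [← pow_mul, mul_comm, pow_mul, hζ.pow_eq_one, one_pow, sub_self]
      rw [h6] at h5
      rcases mul_eq_zero.1 h5 with h7 | h7
      · exact absurd (sub_eq_zero.1 h7) h3
      · exact h7
    have h5 : ∑ i ∈ Finset.range L, ((⟨ζ, hA⟩ : A) ^ m) ^ i = 0 := by
      apply Subtype.ext
      rw [AddSubmonoidClass.coe_finsetSum]
      exact h4
    have h6 := congrArg φ h5
    rw [map_sum, map_zero] at h6
    simp only [map_pow] at h6
    rw [← hz, hcon] at h6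
    simp only [one_pow, Finset.sum_const, Finset.card_range, nsmul_eq_mul, mul_one] at h6
    rw [ZMod.natCast_eq_zero_iff] at h6
    exact absurd (Nat.le_of_dvd hL h6) (by omega)
  have h3 : orderOf z = L := (orderOf_eq_iff hL).2 ⟨h1, h2⟩
  have hz0 : z ≠ 0 := by
    intro h0
    rw [h0, zero_pow hL.ne'] at h1
    exact zero_ne_one h1
  rw [← h3]
  exact orderOf_dvd_of_pow_eq_one (ZMod.pow_card_sub_one_eq_one hz0)

theorem stmRed : StmRedA → StmRedB → StmRedC → StmRed := by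
  intro hA hB hC S L B hL
  classical
  set ζ : ℂ := Complex.exp (2 * Real.pi * Complex.I / L) with hζdef
  have hζ : IsPrimitiveRoot ζ L := Complex.isPrimitiveRoot_exp L hL.ne'
  set S' : Finset ℂ := insert ζ S with hS'
  obtain ⟨K, _, _, ⟨ψ⟩⟩ := hA S'
  let T : Finset K := S'.attach.image fun s =>
    ψ ⟨s.1, Algebra.subset_adjoin (Finset.mem_coe.2 s.2)⟩
  obtain ⟨f, d, hf, hd, hfd⟩ := hB K T
  obtain ⟨p, hp, hpB, hroot⟩ := hC f hf (B + d + L)
  have hpd : ¬ p ∣ d := fun h => absurd (Nat.le_of_dvd hd h) (by omega)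
  obtain ⟨φ0⟩ := hfd p hpd hroot
  have hmem : ∀ x : Algebra.adjoin ℤ (S' : Set ℂ), ψ x ∈ Algebra.adjoin ℤ (T : Set K) := by
    intro x
    exact map_mem S' ψ T (fun s hs => Finset.mem_image.2 ⟨⟨s, hs⟩, Finset.mem_attach _ _, rfl⟩) x.1
      x.2
  let φ : Algebra.adjoin ℤ (S' : Set ℂ) →+* ZMod p :=
    φ0.comp (ψ.codRestrict (Algebra.adjoin ℤ (T : Set K)) hmem)
  have hζA : ζ ∈ Algebra.adjoin ℤ (S' : Set ℂ) :=
    Algebra.subset_adjoin (Finset.mem_coe.2 (Finset.mem_insert_self _ _))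
  refine ⟨p, hp, by omega, dvd_of_root hL (by omega) ζ hζ _ hζA φ, ⟨?_⟩⟩
  have hsub : Algebra.adjoin ℤ (S : Set ℂ) ≤ Algebra.adjoin ℤ (S' : Set ℂ) :=
    Algebra.adjoin_mono (by
      rw [hS', Finset.coe_insert]
      exact Set.subset_insert _ _)
  exact φ.comp (Subalgebra.inclusion hsub).toRingHom

end Pool.Agent.N55.AO
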